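import Pool.Agent.H73.Frog.Pot

/-!
# Certificates in natural numbers for the abstract potential
-/

set_option autoImplicit false

open scoped ENNReal

namespace Pool.Agent.H92.Frog

/-- Number of frogs at the start of a visit to a vertex of type `s` (`0` is the fresh type). -/
def start {N : ℕ} (s : Fin (N + 2)) : ℕ := if s = 0 then 2 else 1

/-- A certificate: test functions `h i k s`, tables `U i σ n`, everything in `ℕ`; type `0` is the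
fresh vertex and type `1` is the visited vertex with nothing known below it. -/
structure Cert where
  N : ℕ
  r : ℕ
  ch : Fin (N + 2) → Fin 4 → Fin (N + 2)
  ch0 : ∀ i, ch 0 i = 0
  ch1 : ∀ i, ch 1 i = 0
  le : Fin (N + 2) → Fin (N + 2) → Prop
  le_cases : ∀ a b, le a b →
    a = 0 ∨ (b ≠ 0 ∧ ∃ ρ : Equiv.Perm (Fin 4), ∀ i, le (ch a i) (ch b (ρ i)))
  cs : (Fin 4 → Fin (N + 2)) → Fin (N + 2)
  cs_le : ∀ σ, ∃ ρ : Equiv.Perm (Fin 4), ∀ i, le (ch (cs σ) i) (σ (ρ i))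
  cs_ne : ∀ σ, cs σ ≠ 0
  h : Fin r → ℕ → Fin (N + 2) → ℕ
  U : Fin r → (Fin 4 → Fin (N + 2)) → ℕ → ℕ
  U_perm : ∀ i σ n (π : Equiv.Perm (Fin 4)), U i (σ ∘ π) n = U i σ n
  zero : ∀ i σ, h i 0 (cs σ) ≤ U i σ 0
  fresh : ∀ i, U i (ch 0) 1 ≤ U i (ch 0) 2
  truncF : ∀ i, h i 0 1 ≤ U i (ch 0) 2
  trunc : ∀ i s, s ≠ 0 → h i 0 s ≤ U i (ch s) 1
  step : ∀ i σ n, ∃ (m : ℕ) (a0 : ℕ) (a : Fin r → ℕ) (c0 : Fin 4 → ℕ) (c : Fin 4 → Fin r → ℕ),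
    0 < m ∧
    (∀ k s, s ≠ 0 → m * h i (k + 1) s ≤ a0 + ∑ j, a j * h j k s) ∧
    (∀ x k s, s ≠ 0 → m * U i (Function.update σ x s) (n + k) ≤ c0 x + ∑ j, c x j * h j k s) ∧
    4 * (a0 + ∑ j, a j * U j σ n) +
      ∑ x : Fin 4, 4 * (c0 x + ∑ j, c x j * U j (ch (σ x)) (start (σ x))) ≤ 20 * (m * U i σ (n + 1))
  root : ∃ (m : ℕ) (b0 : ℕ) (b : Fin r → ℕ),
    (∀ k s, s ≠ 0 → m * k ≤ b0 + ∑ j, b j * h j k s) ∧
    ∀ s, b0 + ∑ j, b j * U j (ch s) (start s) < m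

end Pool.Agent.H92.Frog
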