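import Mathlib.Data.Nat.Bitwise
import Mathlib.Algebra.BigOperators.Group.Finset.Basic
import Mathlib.Algebra.BigOperators.Intervals
import Mathlib.Algebra.BigOperators.Ring.Finset
import Mathlib.Algebra.Order.BigOperators.Group.Finset
import Mathlib.Tactic.Ring
import Mathlib.Tactic.Linarith

/-!
# Vectors of natural numbers packed in lanes of 64 bits
-/

set_option autoImplicit false

open Finset

namespace Pool.Agent.H92.Frog.K

/-- lane `l` -/
def dg (X l : ℕ) : ℕ := X / 2 ^ (64 * l) % 2 ^ 64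

/-- pack a vector -/
def ofL (f : ℕ → ℕ) (L : ℕ) : ℕ := ∑ l ∈ range L, f l * 2 ^ (64 * l)

theorem dg_lt (X l : ℕ) : dg X l < 2 ^ 64 := Nat.mod_lt _ (by positivity)

theorem dg_div (X m l : ℕ) : dg (X / 2 ^ (64 * m)) l = dg X (l + m) := by
  unfold dg
  rw [Nat.div_div_eq_div_mul, ← pow_add, show 64 * m + 64 * l = 64 * (l + m) by ring]

theorem dg_mod {X L l : ℕ} (h : l < L) : dg (X % 2 ^ (64 * L)) l = dg X l := by
  unfold dg
  apply Nat.eq_of_testBit_eq
  intro i
  rw [Nat.testBit_mod_two_pow, Nat.testBit_mod_two_pow, Nat.testBit_div_two_pow,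
    Nat.testBit_div_two_pow, Nat.testBit_mod_two_pow]
  by_cases hi : i < 64
  · have : 64 * l + i < 64 * L := by
      have : l + 1 ≤ L := h
      have := Nat.mul_le_mul_left 64 this
      omega
    simp [hi]
    omega
  · simp [hi]

theorem ofL_succ (f : ℕ → ℕ) (L : ℕ) : ofL f (L + 1) = ofL f L + f L * 2 ^ (64 * L) := by
  unfold ofL; rw [sum_range_succ]

theorem eq_ofL {L : ℕ} : ∀ {X : ℕ}, X < 2 ^ (64 * L) → X = ofL (dg X) L := by
  induction L with
  | zero => intro X h; simp at h; simp [ofL, h]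
  | succ L ih =>
    intro X h
    rw [ofL_succ]
    have h1 : X % 2 ^ (64 * L) = ofL (dg X) L := by
      have := ih (X := X % 2 ^ (64 * L)) (Nat.mod_lt _ (by positivity))
      rw [this]
      unfold ofL
      apply sum_congr rfl
      intro l hl
      rw [dg_mod (mem_range.mp hl)]
    have h2 : dg X L = X / 2 ^ (64 * L) := by
      unfold dg
      apply Nat.mod_eq_of_lt
      rw [Nat.div_lt_iff_lt_mul (by positivity), ← pow_add]
      rwa [show 64 + 64 * L = 64 * (L + 1) by ring]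
    rw [← h1, h2]
    exact (Nat.mod_add_div' X _).symm

theorem ofL_lt {f : ℕ → ℕ} {L : ℕ} (h : ∀ l < L, f l < 2 ^ 64) : ofL f L < 2 ^ (64 * L) := by
  induction L with
  | zero => simp [ofL]
  | succ L ih =>
    rw [ofL_succ]
    have h1 := ih fun l hl => h l (by omega)
    have h2 := h L (by omega)
    have h3 : (f L + 1) * 2 ^ (64 * L) ≤ 2 ^ 64 * 2 ^ (64 * L) := Nat.mul_le_mul_right _ h2
    rw [show 64 * (L + 1) = 64 + 64 * L by ring, pow_add]
    nlinarith

theorem dg_ofL {f : ℕ → ℕ} {L : ℕ} (h : ∀ l < L, f l < 2 ^ 64) : ∀ l < L, dg (ofL f L) l = f l := by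
  induction L with
  | zero => intro l hl; omega
  | succ L ih =>
    intro l hl
    have hlt : ofL f L < 2 ^ (64 * L) := ofL_lt fun l hl => h l (by omega)
    rw [ofL_succ]
    rcases Nat.lt_succ_iff_lt_or_eq.mp hl with h1 | h1
    · rw [← ih (fun l hl => h l (by omega)) l h1]
      rw [← dg_mod (X := ofL f L + f L * 2 ^ (64 * L)) h1, Nat.add_mul_mod_self_right,
        Nat.mod_eq_of_lt hlt]
    · subst h1
      unfold dg
      rw [Nat.add_mul_div_right _ _ (by positivity), Nat.div_eq_of_lt hlt, zero_add]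
      exact Nat.mod_eq_of_lt (h l (by omega))

theorem dg_land (X Y l : ℕ) : dg (X &&& Y) l = dg X l &&& dg Y l := by
  unfold dg
  apply Nat.eq_of_testBit_eq
  intro i
  simp only [Nat.testBit_mod_two_pow, Nat.testBit_div_two_pow, Nat.testBit_and]
  by_cases hi : i < 64 <;> simp [hi]

/-- `BI` has the top bit of each lane set. -/
def BIf (L : ℕ) : ℕ := ofL (fun _ => 2 ^ 63) L

/-- Lanewise comparison. -/
theorem cmp {f g : ℕ → ℕ} {L X Y : ℕ} (hX : X = ofL f L) (hY : Y = ofL g L)
    (hf : ∀ l < L, f l < 2 ^ 63) (hg : ∀ l < L, g l < 2 ^ 63)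
    (h : (X + BIf L - Y) &&& BIf L = BIf L) : ∀ l < L, g l ≤ f l := by
  intro l hl
  have hZ : X + BIf L - Y = ofL (fun l => f l + 2 ^ 63 - g l) L := by
    rw [hX, hY]
    unfold BIf ofL
    rw [Nat.sub_eq_iff_eq_add]
    · rw [← sum_add_distrib, ← sum_add_distrib]
      apply sum_congr rfl
      intro i hi
      have := hg i (mem_range.mp hi)
      rw [← add_mul, ← add_mul]
      congr 1
      dsimp only
      omega
    · rw [← sum_add_distrib]
      apply sum_le_sum
      intro i hi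
      have := hg i (mem_range.mp hi)
      rw [← add_mul]
      apply Nat.mul_le_mul_right
      dsimp only
      omega
  rw [hZ] at h
  have hd : ∀ l < L, (f l + 2 ^ 63 - g l) < 2 ^ 64 := by
    intro l hl
    have h1 := hf l hl
    have h2 := hg l hl
    omega
  have h1 := congrArg (fun X => dg X l) h
  simp only [dg_land] at h1
  rw [dg_ofL hd l hl, show dg (BIf L) l = 2 ^ 63 from dg_ofL (fun _ _ => by norm_num) l hl] at h1
  have h2 : (f l + 2 ^ 63 - g l) &&& 2 ^ 63 ≤ f l + 2 ^ 63 - g l := Nat.and_le_left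
  rw [h1] at h2
  have := hg l hl
  omega

theorem ofL_add (f g : ℕ → ℕ) (L : ℕ) : ofL f L + ofL g L = ofL (fun l => f l + g l) L := by
  unfold ofL
  rw [← sum_add_distrib]
  exact sum_congr rfl fun i _ => by ring

theorem mul_ofL (a : ℕ) (f : ℕ → ℕ) (L : ℕ) : a * ofL f L = ofL (fun l => a * f l) L := by
  unfold ofL
  rw [mul_sum]
  exact sum_congr rfl fun i _ => by ring

theorem ofL_sum {ι : Type} (s : Finset ι) (f : ι → ℕ → ℕ) (L : ℕ) :
    ∑ i ∈ s, ofL (f i) L = ofL (fun l => ∑ i ∈ s, f i l) L := by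
  unfold ofL
  rw [sum_comm]
  exact sum_congr rfl fun i _ => by rw [sum_mul]

theorem ofL_congr {f g : ℕ → ℕ} {L : ℕ} (h : ∀ l < L, f l = g l) : ofL f L = ofL g L :=
  sum_congr rfl fun i hi => by rw [h i (mem_range.mp hi)]

/-- A window of lanes. -/
theorem window (X m L : ℕ) : X / 2 ^ (64 * m) % 2 ^ (64 * L) = ofL (fun l => dg X (l + m)) L := by
  rw [eq_ofL (X := X / 2 ^ (64 * m) % 2 ^ (64 * L)) (Nat.mod_lt _ (by positivity))]
  apply ofL_congr
  intro l hl
  rw [dg_mod hl, dg_div]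

/-- Lanes bounded by a mask. -/
theorem mask_lt {X M L : ℕ} {b : ℕ → ℕ} (hM : M = ofL b L) (hb : ∀ l < L, b l < 2 ^ 64)
    (h : X &&& M = X) : X < 2 ^ (64 * L) ∧ ∀ l < L, dg X l ≤ b l := by
  constructor
  · have h1 : X ≤ M := by rw [← h]; exact Nat.and_le_right
    exact h1.trans_lt (by rw [hM]; exact ofL_lt hb)
  · intro l hl
    have h1 := congrArg (fun X => dg X l) h
    simp only [dg_land] at h1
    rw [← h1, hM, dg_ofL hb l hl]
    exact Nat.and_le_right

end Pool.Agent.H92.Frog.K
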