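import Mathlib

/-!
# Frog model on the 4-ary tree: interface between the probabilistic reduction and the machine
-/

set_option autoImplicit false

open MeasureTheory ProbabilityTheory
open scoped ENNReal

namespace Pool.Agent.H92.Frog

/-- Vertices of the rooted 4-ary tree: the empty list is the root, `c :: x` is child `c` of `x`. -/
abbrev V := List (Fin 4)

/-- One step of randomness. -/
abbrev Cc := Fin 4 × Fin 5

/-- One step of a walk. -/
def mv (x : V) (c : Cc) : V :=
  if x = [] then [c.1] else if c.2 = 0 then x.tail else c.1 :: x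

/-- A configuration: number of revealed steps and current position of every frog, visited set. -/
structure Cfg where
  cnt : V → ℕ
  pos : V → V
  vis : Finset V

/-- The initial configuration. -/
def Cfg.init : Cfg := ⟨fun _ => 0, id, {[]}⟩

/-- Move frog `v` (the frog that started at `v`) with the randomness `c`. -/
def Cfg.move (s : Cfg) (v : V) (c : Cc) : Cfg :=
  ⟨Function.update s.cnt v (s.cnt v + 1), Function.update s.pos v (mv (s.pos v) c),
    insert (mv (s.pos v) c) s.vis⟩

/-- The visits to the root in the model where a frog is removed when it reaches depth `K+1`. -/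
def VK {Ω : Type} (S : V → ℕ → Ω → V) (K : ℕ) (ω : Ω) : Set (V × ℕ) :=
  {p | (∀ A : Set V, [] ∈ A →
          (∀ v ∈ A, ∀ k, (∀ j < k, (S v j ω).length ≤ K) → S v k ω ∈ A) → p.1 ∈ A) ∧
        (∀ j ≤ p.2, (S p.1 j ω).length ≤ K) ∧ S p.1 p.2 ω = []}

/-- All the visits to the root. -/
def VInf {Ω : Type} (S : V → ℕ → Ω → V) (ω : Ω) : Set (V × ℕ) :=
  {p | (∀ A : Set V, [] ∈ A → (∀ v ∈ A, ∀ k, S v k ω ∈ A) → p.1 ∈ A) ∧ S p.1 p.2 ω = []}

/-- A sequential exploration of the model truncated at depth `K`, driven by a machine with state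
space `M`, together with a potential. -/
structure Mach (K : ℕ) where
  M : Type
  cfg : M → Cfg
  s0 : M
  pick : M → Option V
  next : M → Cc → M
  Inv : M → Prop
  Φ : M → ℝ≥0∞
  cfg0 : cfg s0 = Cfg.init
  inv0 : Inv s0
  inv_next : ∀ s v c, Inv s → pick s = some v → Inv (next s c)
  cfg_next : ∀ s v c, Inv s → pick s = some v → cfg (next s c) = (cfg s).move v c
  pick_some : ∀ s v, Inv s → pick s = some v →
    v ∈ (cfg s).vis ∧ ((cfg s).pos v).length ≤ K
  pick_none : ∀ s, Inv s → pick s = none → ∀ v ∈ (cfg s).vis, K < ((cfg s).pos v).length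
  drift : ∀ s v, Inv s → pick s = some v →
    (∑ c : Cc, Φ (next s c)) + 20 * (if (cfg s).pos v = [] then 1 else 0) ≤ 20 * Φ s

/-- The driving randomness of the frog model (same hypotheses as in the statement). -/
structure Model {Ω : Type} [MeasurableSpace Ω] (P : Measure Ω)
    (ξ : V → ℕ → Ω → Cc) (S : V → ℕ → Ω → V) : Prop where
  meas : ∀ v k, Measurable (ξ v k)
  indep : iIndepFun (fun p : V × ℕ => ξ p.1 p.2) P
  unif : ∀ v k (c : Cc), P (ξ v k ⁻¹' {c}) = 1 / 20
  zero : ∀ v ω, S v 0 ω = v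
  succ : ∀ v k ω, S v (k + 1) ω = mv (S v k ω) (ξ v k ω)

/-- R1: the potential of a machine bounds the expected number of visits to the root. -/
def R1 : Prop :=
  ∀ (K : ℕ) (m : Mach K) {Ω : Type} [MeasurableSpace Ω] (P : Measure Ω) [IsProbabilityMeasure P]
    (ξ : V → ℕ → Ω → Cc) (S : V → ℕ → Ω → V), Model P ξ S →
    ∫⁻ ω, ((VK S K ω).encard : ℝ≥0∞) ∂P ≤ m.Φ m.s0

/-- R2: a uniform bound for the truncated models implies transience. -/
def R2 : Prop :=
  ∀ (C : ℝ≥0∞), C ≠ ⊤ → 
    ∀ {Ω : Type} [MeasurableSpace Ω] (P : Measure Ω) [IsProbabilityMeasure P]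
    (ξ : V → ℕ → Ω → Cc) (S : V → ℕ → Ω → V), Model P ξ S →
    (∀ K, ∫⁻ ω, ((VK S K ω).encard : ℝ≥0∞) ∂P ≤ C) →
    ∀ᵐ ω ∂P, (VInf S ω).Finite

end Pool.Agent.H92.Frog
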