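/-!
# Definitions of the kernel checker for the frog certificate
-/

set_option autoImplicit false

namespace Pool.Agent.H92.Frog.K

/-- search tree with natural number keys -/
inductive Tr where
  | nd (k : Nat) (l r : Tr) : Tr
  | lf (v : List Nat) : Tr

/-- the entry with the given key -/
noncomputable def Tr.look (t : Tr) (key : Nat) : List Nat :=
  Tr.rec (motive := fun _ => List Nat)
    (fun k _ _ ihl ihr => Bool.rec ihr ihl (Nat.ble key k)) (fun v => v) t

/-- entry of a list of numbers -/
noncomputable def nthN (l : List Nat) : Nat → Nat :=
  List.rec (motive := fun _ => Nat → Nat) (fun _ => nat_lit 0)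
    (fun a _ ih i => Nat.rec (motive := fun _ => Nat) a (fun j _ => ih j) i) l

/-- entry of a list of lists -/
noncomputable def nthL (l : List (List Nat)) : Nat → List Nat :=
  List.rec (motive := fun _ => Nat → List Nat) (fun _ => [])
    (fun a _ ih i => Nat.rec (motive := fun _ => List Nat) a (fun j _ => ih j) i) l

/-- entry of a list of lists of lists -/
noncomputable def nthLL (l : List (List (List Nat))) : Nat → List (List Nat) :=
  List.rec (motive := fun _ => Nat → List (List Nat)) (fun _ => [])
    (fun a _ ih i => Nat.rec (motive := fun _ => List (List Nat)) a (fun j _ => ih j) i) l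

/-- one step of the expansion of lanes -/
def spr1 (m s x : Nat) : Nat :=
  (fun lo => Nat.add lo (Nat.shiftLeft (Nat.sub x lo) s)) (Nat.land x m)

/-- expansion of lanes of 24 bits to lanes of 64 bits -/
noncomputable def spread (tab : List (Nat × Nat)) : Nat → Nat :=
  List.rec (motive := fun _ => Nat → Nat) (fun x => x) (fun p _ ih x => ih (spr1 p.1 p.2 x)) tab

/-- inner product -/
noncomputable def dot (row : List Nat) : List Nat → Nat :=
  List.rec (motive := fun _ => List Nat → Nat) (fun _ => nat_lit 0)
    (fun h _ ih cvs => List.rec (motive := fun _ => Nat) (nat_lit 0)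
      (fun c t _ => Nat.add (Nat.mul h c) (ih t)) cvs) row

/-- lanewise comparison `Y ≤ X` -/
def gek (BI X Y : Nat) : Bool := Nat.beq (Nat.land (Nat.sub (Nat.add X BI) Y) BI) BI

/-- `p i ∧ p (i+1) ∧ … ∧ p (i+n-1)` -/
noncomputable def allFrom (p : Nat → Bool) (n : Nat) : Nat → Bool :=
  Nat.rec (motive := fun _ => Nat → Bool) (fun _ => true)
    (fun _ ih i => Bool.rec false (ih (Nat.add i (nat_lit 1))) (p i)) n

/-- conjunction, lazy in the second argument -/
noncomputable def band (a b : Bool) : Bool := Bool.rec false b a

/-- all vectors are bounded by the mask -/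
noncomputable def allMask (M : Nat) (l : List Nat) : Bool :=
  List.rec (motive := fun _ => Bool) true
    (fun a _ ih => Bool.rec false ih (Nat.beq (Nat.land a M) a)) l

/-- map of a function over a list of numbers -/
noncomputable def mapN (f : Nat → Nat) (l : List Nat) : List Nat :=
  List.rec (motive := fun _ => List Nat) [] (fun a _ ih => List.cons (f a) ih) l

end Pool.Agent.H92.Frog.K
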