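import Pool.Agent.H92.Frog.Dat.Tab
import Pool.Agent.H92.Frog.Dat.UT
import Pool.Agent.H92.Frog.Dat.CT

/-!
# The kernel checks for the frog certificate
-/

set_option autoImplicit false

namespace Pool.Agent.H92.Frog.K

/-- the scale of the coefficients -/
def CS : Nat := nat_lit 262144

/-- decoding of a vector (the low 32 bits of the literal only serve to make it unique) -/
noncomputable def dec (a : Nat) : Nat := spread SPM (Nat.shiftRight a (nat_lit 32))

/-- the vector of values in the lanes `22 * n + j`, `n < 18`, `j < 22` -/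
noncomputable def UXe (e : List Nat) : Nat :=
  Nat.add (dec (nthN e (nat_lit 0)))
    (Nat.shiftLeft (Nat.add CA (Nat.mul (nthN e (nat_lit 1)) TV)) (nat_lit 12672))

noncomputable def UX (key : Nat) : Nat := UXe (UT.look key)

/-- the vectors of coefficients of a context -/
noncomputable def cv (key : Nat) : List Nat := mapN dec (CT.look key)

/-- window of 176 lanes -/
def win (X s : Nat) : Nat := Nat.mod (Nat.shiftRight X s) M176

/-- the rows of type `s` -/
noncomputable def chkS2 (cv : List Nat) (rows : List (List Nat)) (X : Nat) : Bool :=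
  band (allFrom (fun k => gek BI176 (dot (nthL rows k) cv)
      (Nat.mul CS (win X (Nat.mul (nat_lit 1408) k)))) (nat_lit 10) (nat_lit 0))
    (gek BI176 (Nat.add (dot (nthL rows (nat_lit 10)) cv) (Nat.mul CS (win X (nat_lit 12672))))
      (Nat.mul CS (win X (nat_lit 14080))))

noncomputable def chkS (key : Nat) (cv : List Nat) (s : Nat) : Bool :=
  chkS2 cv (nthLL HR s) (UX (Nat.add key (Nat.pow (nat_lit 5) s)))

/-- the check of a context -/
noncomputable def chkQ1 (key : Nat) (cv : List Nat) : Bool :=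
  band (allMask LM cv) (allFrom (chkS key cv) (nat_lit 10) (nat_lit 1))

noncomputable def chkQ (key : Nat) : Bool := chkQ1 key (cv key)

noncomputable def chkQab (a b : Nat) : Bool :=
  allFrom (fun c => chkQ (Nat.add (Nat.add (Nat.pow (nat_lit 5) a) (Nat.pow (nat_lit 5) b))
    (Nat.pow (nat_lit 5) c))) (Nat.sub (nat_lit 11) b) b

noncomputable def chkQa (a : Nat) : Bool := allFrom (chkQab a) (Nat.sub (nat_lit 11) a) a

/-- upper bound of the value of a call -/
noncomputable def Vv (key s : Nat) : Nat :=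
  dot (nthL BR s) (cv (Nat.sub key (Nat.pow (nat_lit 5) s)))

/-- the shifted values -/
def SHV (Y : Nat) : Nat :=
  Nat.add (Nat.add (Nat.land (Nat.shiftLeft Y (nat_lit 64)) MA) CA1)
    (Nat.mul (nat_lit 3) (Nat.land Y MP))

noncomputable def leB (a b : Nat) : Bool :=
  Nat.beq (Nat.land (Nat.shiftRight LEM (Nat.add (Nat.mul (nat_lit 11) a) b)) (nat_lit 1)) (nat_lit 1)

/-- the check of the coarse type -/
noncomputable def chkCs (cs a b c d : Nat) : Bool :=
  band (Nat.ble (nat_lit 1) cs) <| band (Nat.ble cs (nat_lit 10)) <|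
  band (leB (nthN (nthL CHT cs) (nat_lit 0)) a) <| band (leB (nthN (nthL CHT cs) (nat_lit 1)) b) <|
  band (leB (nthN (nthL CHT cs) (nat_lit 2)) c) (leB (nthN (nthL CHT cs) (nat_lit 3)) d)

noncomputable def chkT3 (key X pr cs a b c d : Nat) : Bool :=
  band (Nat.beq (Nat.land X XM) X) <|
  band (Nat.beq pr (Nat.mul (Nat.mul (nthN PT a) (nthN PT b)) (Nat.mul (nthN PT c) (nthN PT d)))) <|
  band (Nat.beq (Nat.shiftRight X (nat_lit 12672)) (Nat.add CA (Nat.mul pr TV))) <|
  band (gek BI22 (Nat.add CAPA (Nat.mul pr CAPP)) (Nat.mod (Nat.shiftRight X (nat_lit 11264)) M22)) <|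
  band (chkCs cs a b c d) <|
  band (gek BI22 (Nat.mod X M22) (nthN HZ cs)) <|
  gek BI176 (Nat.mul (nat_lit 1310720) (win X (nat_lit 1408)))
    (Nat.add (Nat.mul CS (SHV (Nat.mod X M176)))
      (Nat.add (Nat.add (Vv key a) (Vv key b)) (Nat.add (Vv key c) (Vv key d))))

noncomputable def chkT2 (key : Nat) (e : List Nat) (a b c d : Nat) : Bool :=
  chkT3 key (UXe e) (nthN e (nat_lit 1)) (nthN e (nat_lit 2)) a b c d

/-- the check of a frame -/
noncomputable def chkT1 (key a b c d : Nat) : Bool := chkT2 key (UT.look key) a b c d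

noncomputable def chkT (a b c d : Nat) : Bool :=
  chkT1 (Nat.add (Nat.add (Nat.pow (nat_lit 5) a) (Nat.pow (nat_lit 5) b))
    (Nat.add (Nat.pow (nat_lit 5) c) (Nat.pow (nat_lit 5) d))) a b c d

noncomputable def chkTabc (a b c : Nat) : Bool := allFrom (chkT a b c) (Nat.sub (nat_lit 11) c) c
noncomputable def chkTab (a b : Nat) : Bool := allFrom (chkTabc a b) (Nat.sub (nat_lit 11) b) b
noncomputable def chkTa (a : Nat) : Bool := allFrom (chkTab a) (Nat.sub (nat_lit 11) a) a

end Pool.Agent.H92.Frog.K
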