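import Pool.Agent.H92.Frog.Cert
import Pool.Agent.H92.Frog.Chk1

/-!
# The finite certificate, in semantic form
-/

set_option autoImplicit false

open scoped BigOperators

namespace Pool.Agent.H92.Frog.K

open Pool.Agent.H92.Frog

/-- weight of a type (scale 16) -/
noncomputable def pf (s : Fin 11) : ℕ := nthN PT s

/-- index of a test function: `j ≥ 1` for the indicator of `k ≥ j`, `0` for the exponential ones -/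
noncomputable def jf (i : Fin 22) : ℕ := nthN JT i

/-- bonus of the type `s` -/
noncomputable def gvf (i : Fin 22) (s : Fin 11) : ℕ := nthN (nthL GV i) s

/-- the test functions -/
noncomputable def hf (i : Fin 22) (k : ℕ) (s : Fin 11) : ℕ :=
  if jf i = 0 then 3 ^ k * (65536 + gvf i s) - 65536
  else (if jf i ≤ k then 1048576 else 0) + (if k + 1 = jf i then 16 * gvf i s else 0)

/-- the children of a type -/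
noncomputable def chf (s : Fin 11) (x : Fin 4) : Fin 11 :=
  ⟨nthN (nthL CHT s) x % 11, Nat.mod_lt _ (by norm_num)⟩

/-- key of a frame -/
def keyf (σ : Fin 4 → Fin 11) : ℕ := ∑ x, 5 ^ (σ x : ℕ)

/-- number of frogs at the start -/
def st (s : Fin 11) : ℕ := if s = 0 then 2 else 1

/-- value of the shifted test function -/
noncomputable def shf (u : Fin 22 → ℕ) (i : Fin 22) : ℕ :=
  if jf i = 0 then 3 * u i + 131072 else if jf i = 1 then 1048576 else u (i - 1)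

/-- The finite certificate. -/
structure FinDat where
  U : ℕ → ℕ → Fin 22 → ℕ
  c0 : ℕ → ℕ → Fin 22 → ℕ
  c : ℕ → ℕ → Fin 22 → Fin 22 → ℕ
  cs : ℕ → Fin 11
  ctx : ∀ (a₁ a₂ a₃ s : Fin 11), s ≠ 0 → ∀ k < 10, ∀ n < 8, ∀ i,
    262144 * U (5 ^ (a₁ : ℕ) + 5 ^ (a₂ : ℕ) + 5 ^ (a₃ : ℕ) + 5 ^ (s : ℕ)) (n + k) i ≤
      c0 (5 ^ (a₁ : ℕ) + 5 ^ (a₂ : ℕ) + 5 ^ (a₃ : ℕ)) n i +
        ∑ j, c (5 ^ (a₁ : ℕ) + 5 ^ (a₂ : ℕ) + 5 ^ (a₃ : ℕ)) n i j * hf j k s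
  ray : ∀ (a₁ a₂ a₃ s : Fin 11), s ≠ 0 → ∀ n < 8, ∀ i,
    262144 * U (5 ^ (a₁ : ℕ) + 5 ^ (a₂ : ℕ) + 5 ^ (a₃ : ℕ) + 5 ^ (s : ℕ)) (n + 10) i +
        ∑ j, c (5 ^ (a₁ : ℕ) + 5 ^ (a₂ : ℕ) + 5 ^ (a₃ : ℕ)) n i j * hf j 9 s ≤
      262144 * U (5 ^ (a₁ : ℕ) + 5 ^ (a₂ : ℕ) + 5 ^ (a₃ : ℕ) + 5 ^ (s : ℕ)) (n + 9) i +
        ∑ j, c (5 ^ (a₁ : ℕ) + 5 ^ (a₂ : ℕ) + 5 ^ (a₃ : ℕ)) n i j * hf j 10 s
  tail : ∀ (σ : Fin 4 → Fin 11) i n, 9 ≤ n → n ≤ 17 →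
    U (keyf σ) n i = if jf i = 0 then 32 * (∏ x, pf (σ x)) * 2 ^ (n - 8) else 1048576
  cap : ∀ (σ : Fin 4 → Fin 11) i,
    U (keyf σ) 8 i ≤ if jf i = 0 then 32 * ∏ x, pf (σ x) else 1048576
  zero : ∀ (σ : Fin 4 → Fin 11) i, hf i 0 (cs (keyf σ)) ≤ U (keyf σ) 0 i
  cs_ne : ∀ (σ : Fin 4 → Fin 11), cs (keyf σ) ≠ 0
  cs_le : ∀ (σ : Fin 4 → Fin 11), ∃ ρ : Equiv.Perm (Fin 4), ∀ x,
    leB (chf (cs (keyf σ)) x : ℕ) (σ (ρ x) : ℕ) = true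
  step : ∀ (σ : Fin 4 → Fin 11) i, ∀ n < 8,
    262144 * shf (U (keyf σ) n) i +
      ∑ x, (c0 (keyf σ - 5 ^ (σ x : ℕ)) n i + ∑ j, c (keyf σ - 5 ^ (σ x : ℕ)) n i j *
        U (keyf (chf (σ x))) (st (σ x)) j) ≤ 5 * 262144 * U (keyf σ) (n + 1) i
  fresh : ∀ i, U (keyf (chf 0)) 1 i ≤ U (keyf (chf 0)) 2 i
  truncF : ∀ i, hf i 0 1 ≤ U (keyf (chf 0)) 2 i
  trunc : ∀ i s, s ≠ 0 → hf i 0 s ≤ U (keyf (chf s)) 1 i
  /-- coefficients for the tail: domination of `p_s 2^k` -/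
  g0 : Fin 11 → ℕ
  g : Fin 11 → Fin 22 → ℕ
  gctx : ∀ (t s : Fin 11), s ≠ 0 → ∀ k < 10,
    262144 * 65536 * pf s * 2 ^ k ≤ g0 t + ∑ j, g t j * hf j k s
  gray : ∀ (t s : Fin 11), s ≠ 0 →
    262144 * 65536 * pf s * 2 ^ 9 + ∑ j, g t j * hf j 9 s ≤ ∑ j, g t j * hf j 10 s
  gval : ∀ t : Fin 11, g0 t + ∑ j, g t j * U (keyf (chf t)) (st t) j ≤ 28337235505 * pf t
  /-- coefficients for the number of frogs -/
  b0 : ℕ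
  b : Fin 22 → ℕ
  bctx : ∀ s : Fin 11, s ≠ 0 → ∀ k < 10, 262144 * 1048576 * k ≤ b0 + ∑ j, b j * hf j k s
  bray : ∀ s : Fin 11, s ≠ 0 → 262144 * 1048576 + ∑ j, b j * hf j 9 s ≤ ∑ j, b j * hf j 10 s
  bval : ∀ t : Fin 11, b0 + ∑ j, b j * U (keyf (chf t)) (st t) j < 262144 * 1048576

end Pool.Agent.H92.Frog.K
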