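import Pool.Agent.H92.Frog.Sound2
import Pool.Agent.H92.Frog.Sem
import Pool.Agent.H92.Frog.Dat.Q0
import Pool.Agent.H92.Frog.Dat.Q1
import Pool.Agent.H92.Frog.Dat.Q2
import Pool.Agent.H92.Frog.Dat.Q3
import Pool.Agent.H92.Frog.Dat.Q4
import Pool.Agent.H92.Frog.Dat.T0
import Pool.Agent.H92.Frog.Dat.T1
import Pool.Agent.H92.Frog.Dat.T2
import Pool.Agent.H92.Frog.Dat.T3
import Pool.Agent.H92.Frog.Dat.T4

/-!
# The finite certificate from the kernel checks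
-/

set_option autoImplicit false

open Finset

namespace Pool.Agent.H92.Frog.K

theorem qa : ∀ a < 11, chkQa a = true := by
  intro a ha
  interval_cases a
  exacts [q0, q1, q2, q3, q4, q5, q6, q7, q8, q9, q10]

theorem ta : ∀ a < 11, chkTa a = true := by
  intro a ha
  interval_cases a
  exacts [t0, t1, t2, t3, t4, t5, t6, t7, t8, t9, t10]

theorem qAll {a b c : ℕ} (h1 : a ≤ b) (h2 : b ≤ c) (h3 : c < 11) :
    chkQ (5 ^ a + 5 ^ b + 5 ^ c) = true := by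
  have e1 := allFrom_spec (chkQab a) (11 - a) a (qa a (by omega)) b h1 (by omega)
  exact allFrom_spec (fun c => chkQ (5 ^ a + 5 ^ b + 5 ^ c)) (11 - b) b e1 c h2 (by omega)

theorem tAll {a b c d : ℕ} (h1 : a ≤ b) (h2 : b ≤ c) (h3 : c ≤ d) (h4 : d < 11) :
    chkT a b c d = true := by
  have e1 := allFrom_spec (chkTab a) (11 - a) a (ta a (by omega)) b h1 (by omega)
  have e2 := allFrom_spec (chkTabc a b) (11 - b) b e1 c h2 (by omega)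
  exact allFrom_spec (chkT a b c) (11 - c) c e2 d h3 (by omega)

theorem qAll' (a b c : Fin 11) : chkQ (5 ^ (a : ℕ) + 5 ^ (b : ℕ) + 5 ^ (c : ℕ)) = true := by
  have ha := a.2
  have hb := b.2
  have hc := c.2
  rcases le_total (a : ℕ) b with h1 | h1 <;> rcases le_total (b : ℕ) c with h2 | h2 <;>
    rcases le_total (a : ℕ) c with h3 | h3
  · exact qAll h1 h2 hc
  · exact qAll h1 h2 hc
  · rw [add_assoc, add_comm (5 ^ (b : ℕ)), ← add_assoc]; exact qAll h3 h2 hb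
  · rw [add_comm, ← add_assoc]; exact qAll h3 h1 hb
  · rw [add_comm (5 ^ (a : ℕ))]; exact qAll h1 h3 hc
  · rw [add_comm (5 ^ (a : ℕ)), add_assoc, add_comm (5 ^ (a : ℕ)), ← add_assoc]; exact qAll h2 h3 ha
  · rw [add_comm, add_comm (5 ^ (a : ℕ)), ← add_assoc]; exact qAll h2 h1 ha
  · rw [add_comm, add_comm (5 ^ (a : ℕ)), ← add_assoc]; exact qAll h2 h1 ha

theorem keyf_perm (σ : Fin 4 → Fin 11) (π : Equiv.Perm (Fin 4)) : keyf (σ ∘ π) = keyf σ :=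
  Equiv.sum_comp π (fun x => 5 ^ (σ x : ℕ))

/-- The facts about a frame, sorted by a permutation. -/
theorem frame (σ : Fin 4 → Fin 11) : ∃ π : Equiv.Perm (Fin 4),
    Raw (keyf σ) (σ (π 0)) (σ (π 1)) (σ (π 2)) (σ (π 3)) := by
  refine ⟨Tuple.sort σ, ?_⟩
  have hm := Tuple.monotone_sort σ
  have h := raw (tAll (a := σ (Tuple.sort σ 0)) (b := σ (Tuple.sort σ 1))
    (c := σ (Tuple.sort σ 2)) (d := σ (Tuple.sort σ 3))
    (hm (show (0 : Fin 4) ≤ 1 by decide)) (hm (show (1 : Fin 4) ≤ 2 by decide))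
    (hm (show (2 : Fin 4) ≤ 3 by decide)) (σ (Tuple.sort σ 3)).2)
  have hk : keyf σ = 5 ^ (σ (Tuple.sort σ 0) : ℕ) + 5 ^ (σ (Tuple.sort σ 1) : ℕ) +
      (5 ^ (σ (Tuple.sort σ 2) : ℕ) + 5 ^ (σ (Tuple.sort σ 3) : ℕ)) := by
    rw [← keyf_perm σ (Tuple.sort σ)]
    unfold keyf
    rw [Fin.sum_univ_four]
    simp only [Function.comp]
    ring
  rw [hk]
  exact h

theorem goodU_keyf (σ : Fin 4 → Fin 11) : GoodU (keyf σ) := by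
  obtain ⟨π, h⟩ := frame σ
  exact goodU h.mask

theorem goodC' (a b c : Fin 11) : GoodC (5 ^ (a : ℕ) + 5 ^ (b : ℕ) + 5 ^ (c : ℕ)) := by
  have h := qAll' a b c
  exact goodC (band_iff.mp h).1

theorem ctx' (a b c s : Fin 11) (hs : s ≠ 0) :
    CtxOK (5 ^ (a : ℕ) + 5 ^ (b : ℕ) + 5 ^ (c : ℕ)) s := by
  have hs1 : 1 ≤ (s : ℕ) := by
    rcases Nat.eq_zero_or_pos (s : ℕ) with h | h
    · exact absurd (Fin.ext h) hs
    · exact h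
  have hs2 := s.2
  refine (ctxOK (qAll' a b c) hs1 (by omega) ?_).2
  have h := goodU_keyf ![a, b, c, s]
  have hk : keyf ![a, b, c, s] = 5 ^ (a : ℕ) + 5 ^ (b : ℕ) + 5 ^ (c : ℕ) + 5 ^ (s : ℕ) := by
    unfold keyf
    rw [Fin.sum_univ_four]
    rfl
  rwa [hk] at h

theorem key_sub (σ : Fin 4 → Fin 11) (x : Fin 4) : ∃ a b c : Fin 11,
    keyf σ - 5 ^ (σ x : ℕ) = 5 ^ (a : ℕ) + 5 ^ (b : ℕ) + 5 ^ (c : ℕ) := by
  unfold keyf
  rw [Fin.sum_univ_four]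
  obtain rfl | rfl | rfl | rfl : x = 0 ∨ x = 1 ∨ x = 2 ∨ x = 3 := by
    revert x; decide
  · refine ⟨σ 1, σ 2, σ 3, ?_⟩
    generalize 5 ^ (σ 0 : ℕ) = A, 5 ^ (σ 1 : ℕ) = B, 5 ^ (σ 2 : ℕ) = C, 5 ^ (σ 3 : ℕ) = D
    omega
  · refine ⟨σ 0, σ 2, σ 3, ?_⟩
    generalize 5 ^ (σ 0 : ℕ) = A, 5 ^ (σ 1 : ℕ) = B, 5 ^ (σ 2 : ℕ) = C, 5 ^ (σ 3 : ℕ) = D
    omega
  · refine ⟨σ 0, σ 1, σ 3, ?_⟩
    generalize 5 ^ (σ 0 : ℕ) = A, 5 ^ (σ 1 : ℕ) = B, 5 ^ (σ 2 : ℕ) = C, 5 ^ (σ 3 : ℕ) = D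
    omega
  · refine ⟨σ 0, σ 1, σ 2, ?_⟩
    generalize 5 ^ (σ 0 : ℕ) = A, 5 ^ (σ 1 : ℕ) = B, 5 ^ (σ 2 : ℕ) = C, 5 ^ (σ 3 : ℕ) = D
    omega

theorem goodC_sub (σ : Fin 4 → Fin 11) (x : Fin 4) : GoodC (keyf σ - 5 ^ (σ x : ℕ)) := by
  obtain ⟨a, b, c, h⟩ := key_sub σ x
  rw [h]
  exact goodC' a b c

end Pool.Agent.H92.Frog.K
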