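import Pool.Agent.H92.Frog.FinD

/-!
# The finite certificate
-/

set_option autoImplicit false

open Finset

namespace Pool.Agent.H92.Frog.K

/-- the coefficients of the rows -/
theorem rowTab : ∀ s < 11, 1 ≤ s → ∀ k < 10, nthN (row s k) 0 = 131072 ∧
    ∀ j < 22, nthN (row s k) (j + 1) = hN j k s := by decide +kernel

theorem rayTab : ∀ s < 11, 1 ≤ s → nthN (row s 10) 0 = 0 ∧
    ∀ j < 22, nthN (row s 10) (j + 1) + hN j 9 s = hN j 10 s := by decide +kernel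

/-- key of the frame at the start -/
noncomputable def ck (s : Nat) : Nat :=
  5 ^ nthN (nthL CHT s) 0 + 5 ^ nthN (nthL CHT s) 1 + 5 ^ nthN (nthL CHT s) 2 +
    5 ^ nthN (nthL CHT s) 3

theorem brTab : ∀ s < 11, nthN (nthL BR s) 0 = 131072 ∧ ∀ j < 22,
    nthN (nthL BR s) (j + 1) = dg (UX (ck s)) (22 * (if s = 0 then 2 else 1) + j) := by
  decide +kernel

theorem freshTab : ∀ j < 22, dg (UX (ck 0)) (22 + j) ≤ dg (UX (ck 0)) (44 + j) := by
  decide +kernel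

theorem truncFTab : ∀ j < 22, hN j 0 1 ≤ dg (UX (ck 0)) (44 + j) := by
  decide +kernel

theorem truncTab : ∀ s < 11, 1 ≤ s → ∀ j < 22, hN j 0 s ≤ dg (UX (ck s)) (22 + j) := by
  decide +kernel

theorem chTab : ∀ s < 11, ∀ x < 4, nthN (nthL CHT s) x < 11 := by decide +kernel

theorem gTab : ∀ t < 11, ∀ s < 11, 1 ≤ s → (∀ k < 10,
    262144 * 65536 * nthN PT s * 2 ^ k ≤ dot (row s k) (nthL GT t)) ∧
    262144 * 65536 * nthN PT s * 2 ^ 9 ≤ dot (row s 10) (nthL GT t) := by decide +kernel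

theorem gvTab : ∀ t < 11, dot (nthL BR t) (nthL GT t) ≤ 28337235505 * nthN PT t := by
  decide +kernel

theorem bTab : ∀ s < 11, 1 ≤ s → (∀ k < 10,
    262144 * 1048576 * k ≤ dot (row s k) KC) ∧
    262144 * 1048576 ≤ dot (row s 10) KC := by decide +kernel

theorem bvTab : ∀ t < 11, dot (nthL BR t) KC < 262144 * 1048576 := by
  decide +kernel

theorem hf_eq (i : Fin 22) (k : ℕ) (s : Fin 11) : hf i k s = hN i k s := rfl

theorem jf_eq (n : ℕ) (i : Fin 22) : jt ((22 * n + i) % 22) = jf i := by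
  rw [Nat.mul_add_mod, Nat.mod_eq_of_lt i.2]; rfl

theorem jf0 : jf 0 = 1 := by decide +kernel

attribute [local irreducible] nthN nthL nthLL row UX cv dot hN csN prN dg Vd shd

/-- sums over the 23 entries of a row -/
theorem sum23 (f : ℕ → ℕ) : ∑ m ∈ range 23, f m = f 0 + ∑ j : Fin 22, f (j + 1) := by
  rw [sum_range_succ', sum_range, add_comm]

theorem ne0 {s : Fin 11} (hs : s ≠ 0) : 1 ≤ (s : ℕ) := by
  rcases Nat.eq_zero_or_pos (s : ℕ) with h | h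
  · exact absurd (Fin.ext h) hs
  · exact h

theorem keyf_ch (s : Fin 11) : keyf (chf s) = ck s := by
  have h : ∀ x : Fin 4, ((chf s x : Fin 11) : ℕ) = nthN (nthL CHT s) x := fun x =>
    Nat.mod_eq_of_lt (chTab s s.2 x x.2)
  unfold keyf
  rw [Fin.sum_univ_four, h, h, h, h]
  rfl

/-- values -/
noncomputable def Uk (key n : ℕ) (i : Fin 22) : ℕ := dg (UX key) (22 * n + i)
noncomputable def c0k (key n : ℕ) (i : Fin 22) : ℕ := 131072 * dg (nthN (cv key) 0) (22 * n + i)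
noncomputable def ckk (key n : ℕ) (i j : Fin 22) : ℕ := dg (nthN (cv key) (j + 1)) (22 * n + i)
noncomputable def csk (key : ℕ) : Fin 11 := ⟨csN key % 11, Nat.mod_lt _ (by norm_num)⟩

theorem csk_val (σ : Fin 4 → Fin 11) : (csk (keyf σ) : ℕ) = csN (keyf σ) := by
  obtain ⟨π, h⟩ := frame σ
  have := (cs_bd h).2
  exact Nat.mod_eq_of_lt (by omega)

theorem prN_eq (σ : Fin 4 → Fin 11) : prN (keyf σ) = ∏ x, pf (σ x) := by
  obtain ⟨π, h⟩ := frame σ
  rw [h.pr, ← Equiv.prod_comp π (fun x => pf (σ x)), Fin.prod_univ_four]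
  simp only [pf]
  ring

theorem prN_le (σ : Fin 4 → Fin 11) : prN (keyf σ) ≤ 531441 := by
  obtain ⟨π, h⟩ := frame σ
  exact pr_lt h (Fin.is_lt _) (Fin.is_lt _) (Fin.is_lt _) (Fin.is_lt _)

theorem gsum (s : Fin 11) (hs : s ≠ 0) (k : ℕ) (hk : k < 10) (C : List ℕ) :
    dot (row s k) C = 131072 * nthN C 0 + ∑ j : Fin 22, nthN C (j + 1) * hf j k s := by
  rw [dot_eq _ _ 23 (row_len s.2 (by omega)).1, sum23]
  obtain ⟨h1, h2⟩ := rowTab s s.2 (ne0 hs) k hk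
  rw [h1]
  refine congrArg (HAdd.hAdd _) (sum_congr rfl fun j _ => ?_)
  rw [h2 j j.2, hf_eq, mul_comm]

theorem graysum (s : Fin 11) (hs : s ≠ 0) (C : List ℕ) :
    dot (row s 10) C + ∑ j : Fin 22, nthN C (j + 1) * hf j 9 s =
      ∑ j : Fin 22, nthN C (j + 1) * hf j 10 s := by
  rw [dot_eq _ _ 23 (row_len s.2 (by omega)).1, sum23]
  obtain ⟨h1, h2⟩ := rayTab s s.2 (ne0 hs)
  rw [h1, zero_mul, zero_add, ← sum_add_distrib]
  apply sum_congr rfl
  intro j _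
  rw [hf_eq, hf_eq, ← h2 j j.2]
  ring

theorem Uk_st (s : Fin 11) (j : Fin 22) : Uk (keyf (chf s)) (st s) j =
    dg (UX (ck s)) (22 * (if (s : ℕ) = 0 then 2 else 1) + j) := by
  unfold Uk st
  rw [keyf_ch]
  by_cases h : s = 0
  · rw [if_pos h, if_pos (by rw [h]; rfl)]
  · rw [if_neg h, if_neg]
    intro h'; exact h (Fin.ext h')

theorem brsum (s : Fin 11) (C : List ℕ) :
    dot (nthL BR s) C = 131072 * nthN C 0 +
      ∑ j : Fin 22, nthN C (j + 1) * Uk (keyf (chf s)) (st s) j := by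
  rw [dot_eq _ _ 23 (br_len s.2).1, sum23]
  obtain ⟨h1, h2⟩ := brTab s s.2
  rw [h1]
  refine congrArg (HAdd.hAdd _) (sum_congr rfl fun j _ => ?_)
  rw [h2 j j.2, mul_comm]
  rw [Uk_st]

theorem Vd_def (key s l : ℕ) : Vd key s l = ∑ m ∈ range 23, nthN (nthL BR s) m * dg (nthN (cv (key - 5 ^ s)) m) l := by
  unfold Vd; rfl

theorem Vd_eq (key : ℕ) (s : Fin 11) (n : ℕ) (i : Fin 22) :
    Vd key s (22 * n + i) = c0k (key - 5 ^ (s : ℕ)) n i +
      ∑ j, ckk (key - 5 ^ (s : ℕ)) n i j * Uk (keyf (chf s)) (st s) j := by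
  rw [Vd_def]
  rw [sum23]
  obtain ⟨h1, h2⟩ := brTab s s.2
  rw [h1]
  unfold c0k ckk
  refine congrArg (HAdd.hAdd _) (sum_congr rfl fun j _ => ?_)
  rw [h2 j j.2, mul_comm]
  rw [Uk_st]

theorem shd_eq (key n : ℕ) (i : Fin 22) : shd key (22 * n + i) = shf (Uk key n) i := by
  unfold shd shf
  rw [jf_eq]
  by_cases h0 : jf i = 0
  · rw [if_pos h0, if_pos h0]; rfl
  · rw [if_neg h0, if_neg h0]
    by_cases h1 : jf i = 1
    · rw [if_pos h1, if_pos h1]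
    · rw [if_neg h1, if_neg h1]
      have hi : i ≠ 0 := fun h => h1 (by rw [h]; exact jf0)
      unfold Uk
      have : ((i - 1 : Fin 22) : ℕ) = i - 1 := by
        have h1 : (1 : Fin 22) ≤ i := by
          rw [Fin.le_def]
          rcases Nat.eq_zero_or_pos (i : ℕ) with h | h
          · exact absurd (Fin.ext h) hi
          · exact h
        rw [Fin.sub_val_of_le h1]; rfl
      rw [this]
      have hi' : 1 ≤ (i : ℕ) := by
        rcases Nat.eq_zero_or_pos (i : ℕ) with h | h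
        · exact absurd (Fin.ext h) hi
        · exact h
      congr 1
      omega


theorem ctxK (a b c s : Fin 11) (hs : s ≠ 0) (k : ℕ) (hk : k < 10) (n : ℕ) (hn : n < 8)
    (i : Fin 22) :
    262144 * Uk (5 ^ (a : ℕ) + 5 ^ (b : ℕ) + 5 ^ (c : ℕ) + 5 ^ (s : ℕ)) (n + k) i ≤
      c0k (5 ^ (a : ℕ) + 5 ^ (b : ℕ) + 5 ^ (c : ℕ)) n i +
        ∑ j, ckk (5 ^ (a : ℕ) + 5 ^ (b : ℕ) + 5 ^ (c : ℕ)) n i j * hf j k s := by
  have h := (ctx' a b c s hs).row k hk (22 * n + i) (by omega)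
  rw [sum23] at h
  obtain ⟨h1, h2⟩ := rowTab s s.2 (ne0 hs) k hk
  rw [h1] at h
  have e : 22 * n + (i : ℕ) + 22 * k = 22 * (n + k) + i := by ring
  rw [e] at h
  refine h.trans (le_of_eq ?_)
  unfold c0k ckk
  refine congrArg (HAdd.hAdd _) (sum_congr rfl fun j _ => ?_)
  rw [h2 j j.2, hf_eq, mul_comm]

theorem rayK (a b c s : Fin 11) (hs : s ≠ 0) (n : ℕ) (hn : n < 8) (i : Fin 22) :
    262144 * Uk (5 ^ (a : ℕ) + 5 ^ (b : ℕ) + 5 ^ (c : ℕ) + 5 ^ (s : ℕ)) (n + 10) i +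
        ∑ j, ckk (5 ^ (a : ℕ) + 5 ^ (b : ℕ) + 5 ^ (c : ℕ)) n i j * hf j 9 s ≤
      262144 * Uk (5 ^ (a : ℕ) + 5 ^ (b : ℕ) + 5 ^ (c : ℕ) + 5 ^ (s : ℕ)) (n + 9) i +
        ∑ j, ckk (5 ^ (a : ℕ) + 5 ^ (b : ℕ) + 5 ^ (c : ℕ)) n i j * hf j 10 s := by
  have h := (ctx' a b c s hs).ray (22 * n + i) (by omega)
  rw [sum23] at h
  obtain ⟨h1, h2⟩ := rayTab s s.2 (ne0 hs)
  rw [h1, zero_mul, zero_add] at h
  have e1 : 22 * n + (i : ℕ) + 220 = 22 * (n + 10) + i := by ring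
  have e2 : 22 * n + (i : ℕ) + 198 = 22 * (n + 9) + i := by ring
  rw [e1, e2] at h
  have e3 : ∑ j, ckk (5 ^ (a : ℕ) + 5 ^ (b : ℕ) + 5 ^ (c : ℕ)) n i j * hf j 10 s =
      ∑ j : Fin 22, nthN (row s 10) (j + 1) *
        dg (nthN (cv (5 ^ (a : ℕ) + 5 ^ (b : ℕ) + 5 ^ (c : ℕ))) (j + 1)) (22 * n + i) +
      ∑ j, ckk (5 ^ (a : ℕ) + 5 ^ (b : ℕ) + 5 ^ (c : ℕ)) n i j * hf j 9 s := by
    rw [← sum_add_distrib]
    refine sum_congr rfl fun j _ => ?_
    rw [hf_eq, hf_eq, ← h2 j j.2]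
    unfold ckk
    ring
  rw [e3]
  unfold Uk
  generalize ∑ j : Fin 22, nthN (row s 10) (j + 1) *
        dg (nthN (cv (5 ^ (a : ℕ) + 5 ^ (b : ℕ) + 5 ^ (c : ℕ))) (j + 1)) (22 * n + i) = A at h ⊢
  generalize dg (UX (5 ^ (a : ℕ) + 5 ^ (b : ℕ) + 5 ^ (c : ℕ) + 5 ^ (s : ℕ)))
    (22 * (n + 10) + i) = B at h ⊢
  generalize dg (UX (5 ^ (a : ℕ) + 5 ^ (b : ℕ) + 5 ^ (c : ℕ) + 5 ^ (s : ℕ)))
    (22 * (n + 9) + i) = C at h ⊢
  omega

theorem tailK (σ : Fin 4 → Fin 11) (i : Fin 22) (n : ℕ) (h1 : 9 ≤ n) (h2 : n ≤ 17) :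
    Uk (keyf σ) n i = if jf i = 0 then 32 * (∏ x, pf (σ x)) * 2 ^ (n - 8) else 1048576 := by
  obtain ⟨π, h⟩ := frame σ
  have h3 := tail_dg h (prN_le σ) (l := 22 * (n - 9) + i) (by omega)
  rw [jf_eq, prN_eq] at h3
  unfold Uk
  rw [show 22 * n + (i : ℕ) = 22 * (n - 9) + i + 198 by omega, h3]
  have e : (22 * (n - 9) + (i : ℕ)) / 22 = n - 9 := by omega
  rw [e]
  obtain ⟨m, rfl⟩ : ∃ m, n = m + 9 := ⟨n - 9, by omega⟩
  rw [show m + 9 - 9 = m by omega, show m + 9 - 8 = m + 1 by omega, pow_succ]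
  split_ifs
  · ring
  · rfl

theorem capK (σ : Fin 4 → Fin 11) (i : Fin 22) :
    Uk (keyf σ) 8 i ≤ if jf i = 0 then 32 * ∏ x, pf (σ x) else 1048576 := by
  obtain ⟨π, h⟩ := frame σ
  have h3 := cap_dg h (prN_le σ) i.2
  rw [prN_eq] at h3
  unfold Uk
  rw [show 22 * 8 + (i : ℕ) = i + 176 by omega]
  exact h3

theorem zeroK (σ : Fin 4 → Fin 11) (i : Fin 22) : hf i 0 (csk (keyf σ)) ≤ Uk (keyf σ) 0 i := by
  obtain ⟨π, h⟩ := frame σ
  have h3 := zero_dg h i.2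
  rw [hf_eq, csk_val]
  unfold Uk
  rw [mul_zero, zero_add]
  exact h3

theorem cs_neK (σ : Fin 4 → Fin 11) : csk (keyf σ) ≠ 0 := by
  intro h0
  obtain ⟨π, h⟩ := frame σ
  have h1 := (cs_bd h).1
  rw [← csk_val, h0] at h1
  exact absurd h1 (by simp)

theorem four : ∀ x : Fin 4, x = 0 ∨ x = 1 ∨ x = 2 ∨ x = 3 := by decide

theorem cs_leK (σ : Fin 4 → Fin 11) : ∃ ρ : Equiv.Perm (Fin 4), ∀ x,
    leB (chf (csk (keyf σ)) x : ℕ) (σ (ρ x) : ℕ) = true := by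
  obtain ⟨π, h⟩ := frame σ
  obtain ⟨h0, h1, h2, h3⟩ := cs_le h
  refine ⟨π, fun x => ?_⟩
  have hc : ((chf (csk (keyf σ)) x : Fin 11) : ℕ) = nthN (nthL CHT (csN (keyf σ))) x := by
    rw [← csk_val]
    exact Nat.mod_eq_of_lt (chTab _ (Fin.is_lt _) x x.2)
  rw [hc]
  obtain rfl | rfl | rfl | rfl := four x
  · exact h0
  · exact h1
  · exact h2
  · exact h3

theorem stepK (σ : Fin 4 → Fin 11) (i : Fin 22) (n : ℕ) (hn : n < 8) :
    262144 * shf (Uk (keyf σ) n) i +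
      ∑ x, (c0k (keyf σ - 5 ^ (σ x : ℕ)) n i + ∑ j, ckk (keyf σ - 5 ^ (σ x : ℕ)) n i j *
        Uk (keyf (chf (σ x))) (st (σ x)) j) ≤ 5 * 262144 * Uk (keyf σ) (n + 1) i := by
  obtain ⟨π, h⟩ := frame σ
  have h1 := step_dg h (Fin.is_lt _) (Fin.is_lt _) (Fin.is_lt _) (Fin.is_lt _)
    (goodC_sub σ (π 0)) (goodC_sub σ (π 1)) (goodC_sub σ (π 2)) (goodC_sub σ (π 3))
    (l := 22 * n + i) (by omega)
  rw [shd_eq] at h1
  have e0 : ∀ x, c0k (keyf σ - 5 ^ (σ x : ℕ)) n i + ∑ j, ckk (keyf σ - 5 ^ (σ x : ℕ)) n i j *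
        Uk (keyf (chf (σ x))) (st (σ x)) j = Vd (keyf σ) (σ x) (22 * n + i) := fun x =>
    (Vd_eq (keyf σ) (σ x) n i).symm
  rw [Finset.sum_congr rfl fun x _ => e0 x]
  rw [← Equiv.sum_comp π, Fin.sum_univ_four]
  have e : 22 * n + (i : ℕ) + 22 = 22 * (n + 1) + i := by ring
  rw [e] at h1
  have e2 : Uk (keyf σ) (n + 1) i = dg (UX (keyf σ)) (22 * (n + 1) + i) := by unfold Uk; rfl
  rw [e2]
  generalize Vd (keyf σ) (σ (π 0)) (22 * n + i) = A at h1 ⊢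
  generalize Vd (keyf σ) (σ (π 1)) (22 * n + i) = B at h1 ⊢
  generalize Vd (keyf σ) (σ (π 2)) (22 * n + i) = C at h1 ⊢
  generalize Vd (keyf σ) (σ (π 3)) (22 * n + i) = D at h1 ⊢
  generalize dg (UX (keyf σ)) (22 * (n + 1) + i) = E at h1 ⊢
  generalize shf (Uk (keyf σ) n) i = F at h1 ⊢
  omega

/-- The finite certificate. -/
noncomputable def finDat : FinDat where
  U := Uk
  c0 := c0k
  c := ckk
  cs := csk
  ctx := ctxK
  ray := rayK
  tail := tailK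
  cap := capK
  zero := zeroK
  cs_ne := cs_neK
  cs_le := cs_leK
  step := stepK
  fresh := by
    intro i
    have h := freshTab i i.2
    unfold Uk
    rw [keyf_ch]
    exact h
  truncF := by
    intro i
    have h := truncFTab i i.2
    unfold Uk
    rw [keyf_ch, hf_eq]
    exact h
  trunc := by
    intro i s hs
    have h := truncTab s s.2 (ne0 hs) i i.2
    unfold Uk
    rw [keyf_ch, hf_eq, mul_one]
    exact h
  g0 := fun t => 131072 * nthN (nthL GT t) 0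
  g := fun t j => nthN (nthL GT t) (j + 1)
  gctx := by
    intro t s hs k hk
    have h := (gTab t t.2 s s.2 (ne0 hs)).1 k hk
    rw [gsum s hs k hk] at h
    exact h
  gray := by
    intro t s hs
    have h := (gTab t t.2 s s.2 (ne0 hs)).2
    have h2 := graysum s hs (nthL GT t)
    refine le_trans ?_ (le_of_eq h2)
    exact Nat.add_le_add_right h _
  gval := by
    intro t
    have h := gvTab t t.2
    rw [brsum] at h
    exact h
  b0 := 131072 * nthN KC 0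
  b := fun j => nthN KC (j + 1)
  bctx := by
    intro s hs k hk
    have h := (bTab s s.2 (ne0 hs)).1 k hk
    rw [gsum s hs k hk] at h
    exact h
  bray := by
    intro s hs
    have h := (bTab s s.2 (ne0 hs)).2
    have h2 := graysum s hs KC
    refine le_trans ?_ (le_of_eq h2)
    exact Nat.add_le_add_right h _
  bval := by
    intro t
    have h := bvTab t t.2
    rw [brsum] at h
    exact h

end Pool.Agent.H92.Frog.K
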