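import Pool.Agent.H92.Frog.Pack
import Pool.Agent.H92.Frog.Chk1

/-!
# Soundness of the packed checks
-/

set_option autoImplicit false

open Finset

namespace Pool.Agent.H92.Frog.K

theorem band_iff {a b : Bool} : band a b = true ↔ a = true ∧ b = true := by
  cases a <;> cases b <;> simp [band]

theorem allFrom_spec (p : ℕ → Bool) : ∀ n i, allFrom p n i = true →
    ∀ j, i ≤ j → j < i + n → p j = true := by
  intro n
  induction n with
  | zero => intro i _ j h1 h2; omega
  | succ n ih =>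
    intro i h j h1 h2
    have h' : (Bool.rec false (allFrom p n (i + 1)) (p i) : Bool) = true := h
    cases hp : p i with
    | false => rw [hp] at h'; exact absurd h' (by simp)
    | true =>
      rw [hp] at h'
      rcases Nat.eq_or_lt_of_le h1 with h3 | h3
      · rw [← h3]; exact hp
      · exact ih (i + 1) h' j h3 (by omega)

theorem nthN_nil (i : ℕ) : nthN [] i = 0 := rfl
theorem nthN_zero (a : ℕ) (l : List ℕ) : nthN (a :: l) 0 = a := rfl
theorem nthN_succ (a : ℕ) (l : List ℕ) (i : ℕ) : nthN (a :: l) (i + 1) = nthN l i := rfl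

theorem nthN_of_le : ∀ (l : List ℕ) (i : ℕ), l.length ≤ i → nthN l i = 0
  | [], _, _ => rfl
  | a :: l, 0, h => by simp at h
  | a :: l, i + 1, h => by
    rw [nthN_succ]; exact nthN_of_le l i (by simpa using h)

theorem dot_nil (c : List ℕ) : dot [] c = 0 := rfl
theorem dot_cons_nil (h : ℕ) (r : List ℕ) : dot (h :: r) [] = 0 := rfl
theorem dot_cons (h : ℕ) (r : List ℕ) (c : ℕ) (t : List ℕ) :
    dot (h :: r) (c :: t) = h * c + dot r t := rfl

theorem dot_eq : ∀ (row c : List ℕ) (m : ℕ), row.length ≤ m →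
    dot row c = ∑ i ∈ range m, nthN row i * nthN c i
  | [], c, m, _ => by
    rw [dot_nil]; symm; apply sum_eq_zero; intro i _; rw [nthN_nil, zero_mul]
  | h :: r, [], m, _ => by
    rw [dot_cons_nil]; symm; apply sum_eq_zero; intro i _; rw [nthN_nil, mul_zero]
  | h :: r, c :: t, 0, hm => by simp at hm
  | h :: r, c :: t, m + 1, hm => by
    rw [dot_cons, sum_range_succ', dot_eq r t m (by simpa using hm)]
    simp only [nthN_succ, nthN_zero]
    ring

theorem mask_spec (M : ℕ) : ∀ (l : List ℕ), allMask M l = true →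
    ∀ i, nthN l i &&& M = nthN l i
  | [], _, i => by rw [nthN_nil]; exact Nat.zero_and M
  | a :: l, h, i => by
    have h' : (Bool.rec false (allMask M l) (Nat.beq (Nat.land a M) a) : Bool) = true := h
    cases hp : Nat.beq (Nat.land a M) a with
    | false => rw [hp] at h'; exact absurd h' (by simp)
    | true =>
      rw [hp] at h'
      cases i with
      | zero => exact Nat.eq_of_beq_eq_true hp
      | succ i => exact mask_spec M l h' i

/-- packing by recursion -/
noncomputable def pk (f : Nat → Nat) (n : Nat) : Nat :=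
  Nat.rec (motive := fun _ => Nat) (nat_lit 0)
    (fun k ih => Nat.add ih (Nat.shiftLeft (f k) (Nat.mul (nat_lit 64) k))) n

theorem pk_eq (f : ℕ → ℕ) (n : ℕ) : pk f n = ofL f n := by
  induction n with
  | zero => rfl
  | succ n ih =>
    rw [ofL_succ, ← ih]
    show pk f n + (f n) <<< (64 * n) = _
    rw [Nat.shiftLeft_eq]

noncomputable def jt (j : Nat) : Nat := nthN JT j

theorem BI176_eq : BI176 = BIf 176 := by
  rw [BIf, ← pk_eq]; decide +kernel
theorem BI22_eq : BI22 = BIf 22 := by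
  rw [BIf, ← pk_eq]; decide +kernel
theorem M176_eq : M176 = 2 ^ (64 * 176) := by decide +kernel
theorem M22_eq : M22 = 2 ^ (64 * 22) := by decide +kernel
theorem LM_eq : LM = ofL (fun _ => 16777215) 176 := by
  rw [← pk_eq]; decide +kernel
theorem XM_eq : XM = ofL (fun l => Bool.rec 17179869183 16777215 (Nat.ble (l + 1) 198)) 396 := by
  rw [← pk_eq]; decide +kernel
theorem MA_eq : MA = ofL (fun l => Bool.rec 0 (2 ^ 64 - 1) (Nat.ble 2 (jt (l % 22)))) 176 := by
  rw [← pk_eq]; decide +kernel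
theorem MP_eq : MP = ofL (fun l => Bool.rec 0 (2 ^ 64 - 1) (Nat.beq (jt (l % 22)) 0)) 176 := by
  rw [← pk_eq]; decide +kernel
theorem CA1_eq : CA1 = ofL (fun l => Bool.rec (Bool.rec 0 1048576 (Nat.beq (jt (l % 22)) 1))
    131072 (Nat.beq (jt (l % 22)) 0)) 176 := by
  rw [← pk_eq]; decide +kernel
theorem CA_eq : CA = ofL (fun l => Bool.rec 1048576 0 (Nat.beq (jt (l % 22)) 0)) 198 := by
  rw [← pk_eq]; decide +kernel
theorem TV_eq : TV = ofL (fun l => Bool.rec 0 (64 * 2 ^ (l / 22)) (Nat.beq (jt (l % 22)) 0)) 198 := by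
  rw [← pk_eq]; decide +kernel
theorem CAPA_eq : CAPA = ofL (fun l => Bool.rec 1048576 0 (Nat.beq (jt l) 0)) 22 := by
  rw [← pk_eq]; decide +kernel
theorem CAPP_eq : CAPP = ofL (fun l => Bool.rec 0 32 (Nat.beq (jt l) 0)) 22 := by
  rw [← pk_eq]; decide +kernel

theorem gek_iff {BI X Y : ℕ} : gek BI X Y = true ↔ (X + BI - Y) &&& BI = BI := by
  constructor
  · intro h; exact Nat.eq_of_beq_eq_true h
  · intro h
    show Nat.beq ((X + BI - Y) &&& BI) BI = true
    rw [h]; exact Nat.beq_refl BI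

theorem win_eq (X m : ℕ) : win X (64 * m) = ofL (fun l => dg X (l + m)) 176 := by
  show (X >>> (64 * m)) % M176 = _
  rw [M176_eq, Nat.shiftRight_eq_div_pow, window]

/-- the row of type `s` and number `k` -/
noncomputable def row (s k : ℕ) : List ℕ := nthL (nthLL HR s) k

/-- rows are bounded -/
noncomputable def rowChk : Bool :=
  band (allFrom (fun s => allFrom (fun k =>
    band (Nat.ble (List.length (row s k)) 23)
      (Nat.ble (Nat.mul (dot (row s k) (List.replicate 23 1)) 16777216) (2 ^ 61))) 11 0) 11 0)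
  (allFrom (fun s => band (Nat.ble (List.length (nthL BR s)) 23)
      (Nat.ble (Nat.mul (dot (nthL BR s) (List.replicate 23 1)) 16777216) (2 ^ 60))) 11 0)

theorem rowChk_eq : rowChk = true := by decide +kernel

theorem nthN_ones : ∀ m < 23, nthN (List.replicate 23 1) m = 1 := by decide

theorem dot_ones {r : List ℕ} (h : r.length ≤ 23) :
    dot r (List.replicate 23 1) = ∑ m ∈ range 23, nthN r m := by
  rw [dot_eq _ _ 23 h]
  apply sum_congr rfl
  intro m hm
  rw [nthN_ones m (mem_range.mp hm), mul_one]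

theorem row_len {s k : ℕ} (hs : s < 11) (hk : k < 11) :
    (row s k).length ≤ 23 ∧ (∑ m ∈ range 23, nthN (row s k) m) * 16777216 ≤ 2 ^ 61 := by
  have h := (band_iff.mp rowChk_eq).1
  have h1 := allFrom_spec _ _ _ h s (Nat.zero_le _) (by omega)
  have h2 := allFrom_spec _ _ _ h1 k (Nat.zero_le _) (by omega)
  have h3 := band_iff.mp h2
  have h4 := Nat.le_of_ble_eq_true h3.1
  refine ⟨h4, ?_⟩
  rw [← dot_ones h4]
  exact Nat.le_of_ble_eq_true h3.2

theorem br_len {s : ℕ} (hs : s < 11) :
    (nthL BR s).length ≤ 23 ∧ (∑ m ∈ range 23, nthN (nthL BR s) m) * 16777216 ≤ 2 ^ 60 := by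
  have h := (band_iff.mp rowChk_eq).2
  have h1 := allFrom_spec _ _ _ h s (Nat.zero_le _) (by omega)
  have h3 := band_iff.mp h1
  have h4 := Nat.le_of_ble_eq_true h3.1
  refine ⟨h4, ?_⟩
  rw [← dot_ones h4]
  exact Nat.le_of_ble_eq_true h3.2

/-- vectors of coefficients are good -/
def GoodC (key : ℕ) : Prop :=
  ∀ m, nthN (cv key) m < 2 ^ (64 * 176) ∧ ∀ l < 176, dg (nthN (cv key) m) l ≤ 16777215

theorem goodC {key : ℕ} (h : allMask LM (cv key) = true) : GoodC key := by
  intro m
  exact mask_lt LM_eq (fun _ _ => by norm_num) (mask_spec _ _ h m)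

theorem dot_cv {key : ℕ} (h : GoodC key) {r : List ℕ} (hr : r.length ≤ 23) :
    dot r (cv key) = ofL (fun l => ∑ m ∈ range 23, nthN r m * dg (nthN (cv key) m) l) 176 := by
  rw [dot_eq _ _ 23 hr, ← ofL_sum]
  apply sum_congr rfl
  intro m _
  rw [← mul_ofL, ← eq_ofL (h m).1]

theorem sum_bd {key : ℕ} (h : GoodC key) {r : List ℕ} {l : ℕ} (hl : l < 176) {b : ℕ}
    (hb : (∑ m ∈ range 23, nthN r m) * 16777216 ≤ b) :
    ∑ m ∈ range 23, nthN r m * dg (nthN (cv key) m) l ≤ b := by
  refine le_trans ?_ hb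
  rw [sum_mul]
  apply sum_le_sum
  intro m _
  have := (h m).2 l hl
  exact Nat.mul_le_mul_left _ (by omega)

/-- vectors of values are good -/
def GoodU (key : ℕ) : Prop :=
  UX key < 2 ^ (64 * 396) ∧ (∀ l < 396, dg (UX key) l < 2 ^ 34) ∧ ∀ l < 198, dg (UX key) l < 2 ^ 24

theorem goodU {key : ℕ} (h : UX key &&& XM = UX key) : GoodU key := by
  have h1 := mask_lt XM_eq (fun l _ => by cases Nat.ble (l + 1) 198 <;> norm_num) h
  refine ⟨h1.1, fun l hl => ?_, fun l hl => ?_⟩
  · have := h1.2 l hl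
    cases hb : Nat.ble (l + 1) 198 <;> rw [hb] at this <;> simp at this <;> omega
  · have h2 := h1.2 l (by omega)
    rw [Nat.ble_eq_true_of_le (show l + 1 ≤ 198 by omega)] at h2
    simp at h2
    omega

/-- what the check of a context gives -/
structure CtxOK (key s : ℕ) : Prop where
  row : ∀ k < 10, ∀ l < 176, 262144 * dg (UX (key + 5 ^ s)) (l + 22 * k) ≤
    ∑ m ∈ range 23, nthN (row s k) m * dg (nthN (cv key) m) l
  ray : ∀ l < 176, 262144 * dg (UX (key + 5 ^ s)) (l + 220) ≤
    ∑ m ∈ range 23, nthN (K.row s 10) m * dg (nthN (cv key) m) l +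
      262144 * dg (UX (key + 5 ^ s)) (l + 198)

theorem CS_eq : CS = 262144 := rfl

theorem ctxOK {key : ℕ} (h : chkQ key = true) {s : ℕ} (h1 : 1 ≤ s) (h10 : s ≤ 10)
    (hU : GoodU (key + 5 ^ s)) : GoodC key ∧ CtxOK key s := by
  have h' := band_iff.mp (show band (allMask LM (cv key)) (allFrom (chkS key (cv key)) 10 1) = true
    from h)
  have hC := goodC h'.1
  refine ⟨hC, ?_⟩
  have hs := band_iff.mp (allFrom_spec _ _ _ h'.2 s h1 (by omega))
  have hd : ∀ l < 396, 262144 * dg (UX (key + 5 ^ s)) l < 2 ^ 60 := by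
    intro l hl
    have := hU.2.1 l hl
    omega
  constructor
  · intro k hk
    have h2 := gek_iff.mp (allFrom_spec _ _ _ hs.1 k (Nat.zero_le _) (by omega))
    rw [BI176_eq] at h2
    obtain ⟨hr1, hr2⟩ := row_len (s := s) (k := k) (by omega) (by omega)
    refine cmp (dot_cv hC hr1) (Y := CS * win (UX (key + 5 ^ s)) (1408 * k))
      (g := fun l => 262144 * dg (UX (key + 5 ^ s)) (l + 22 * k)) ?_ ?_ ?_ h2
    · rw [show 1408 * k = 64 * (22 * k) by ring, win_eq, CS_eq, mul_ofL]
    · intro l hl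
      exact (sum_bd hC hl hr2).trans_lt (by norm_num)
    · intro l hl
      exact (hd (l + 22 * k) (by omega)).trans (by norm_num)
  · have h2 := gek_iff.mp hs.2
    rw [BI176_eq] at h2
    obtain ⟨hr1, hr2⟩ := row_len (s := s) (k := 10) (by omega) (by omega)
    refine cmp (X := dot (K.row s 10) (cv key) + CS * win (UX (key + 5 ^ s)) 12672)
      (f := fun l => ∑ m ∈ range 23, nthN (K.row s 10) m * dg (nthN (cv key) m) l +
      262144 * dg (UX (key + 5 ^ s)) (l + 198))
      (Y := CS * win (UX (key + 5 ^ s)) 14080)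
      (g := fun l => 262144 * dg (UX (key + 5 ^ s)) (l + 220)) ?_ ?_ ?_ ?_ h2
    · rw [show 12672 = 64 * 198 by norm_num, win_eq, CS_eq, mul_ofL, dot_cv hC hr1, ofL_add]
    · rw [show 14080 = 64 * 220 by norm_num, win_eq, CS_eq, mul_ofL]
    · intro l hl
      have a := sum_bd hC hl hr2
      have b := hd (l + 198) (by omega)
      omega
    · intro l hl
      exact (hd (l + 220) (by omega)).trans (by norm_num)

end Pool.Agent.H92.Frog.K
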