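import Pool.Agent.H92.Frog.Sound

/-!
# Soundness of the packed checks: frames
-/

set_option autoImplicit false

open Finset

namespace Pool.Agent.H92.Frog.K

/-- product of the weights and coarse type stored in the table -/
noncomputable def prN (key : ℕ) : ℕ := nthN (UT.look key) 1
noncomputable def csN (key : ℕ) : ℕ := nthN (UT.look key) 2

/-- the test functions, natural number arguments -/
noncomputable def hN (i k s : ℕ) : ℕ :=
  if jt i = 0 then 3 ^ k * (65536 + nthN (nthL GV i) s) - 65536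
  else (if jt i ≤ k then 1048576 else 0) + (if k + 1 = jt i then 16 * nthN (nthL GV i) s else 0)

/-- raw facts -/
structure Raw (key a b c d : ℕ) : Prop where
  mask : UX key &&& XM = UX key
  pr : prN key = nthN PT a * nthN PT b * (nthN PT c * nthN PT d)
  tail : UX key >>> 12672 = CA + prN key * TV
  cap : gek BI22 (CAPA + prN key * CAPP) ((UX key >>> 11264) % M22) = true
  cs : chkCs (csN key) a b c d = true
  zero : gek BI22 (UX key % M22) (nthN HZ (csN key)) = true
  step : gek BI176 (1310720 * win (UX key) 1408) (CS * SHV (UX key % M176) +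
    ((Vv key a + Vv key b) + (Vv key c + Vv key d))) = true

theorem raw {a b c d : ℕ} (h : chkT a b c d = true) :
    Raw (5 ^ a + 5 ^ b + (5 ^ c + 5 ^ d)) a b c d := by
  have h0 : chkT3 (5 ^ a + 5 ^ b + (5 ^ c + 5 ^ d)) (UX (5 ^ a + 5 ^ b + (5 ^ c + 5 ^ d)))
    (prN (5 ^ a + 5 ^ b + (5 ^ c + 5 ^ d))) (csN (5 ^ a + 5 ^ b + (5 ^ c + 5 ^ d))) a b c d = true := h
  unfold chkT3 at h0
  obtain ⟨h1, h0⟩ := band_iff.mp h0
  obtain ⟨h2, h0⟩ := band_iff.mp h0
  obtain ⟨h3, h0⟩ := band_iff.mp h0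
  obtain ⟨h4, h0⟩ := band_iff.mp h0
  obtain ⟨h5, h0⟩ := band_iff.mp h0
  obtain ⟨h6, h7⟩ := band_iff.mp h0
  exact ⟨Nat.eq_of_beq_eq_true h1, Nat.eq_of_beq_eq_true h2, Nat.eq_of_beq_eq_true h3, h4, h5, h6,
    h7⟩

theorem PT_le : ∀ s < 11, nthN PT s ≤ 27 ∧ 16 ≤ nthN PT s := by decide +kernel

section

variable {key a b c d : ℕ}

theorem pr_lt (h : Raw key a b c d) (ha : a < 11) (hb : b < 11) (hc : c < 11) (hd : d < 11) :
    prN key ≤ 531441 := by
  rw [h.pr]
  calc nthN PT a * nthN PT b * (nthN PT c * nthN PT d) ≤ 27 * 27 * (27 * 27) :=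
        Nat.mul_le_mul (Nat.mul_le_mul (PT_le a ha).1 (PT_le b hb).1)
          (Nat.mul_le_mul (PT_le c hc).1 (PT_le d hd).1)
    _ = 531441 := by norm_num

theorem tail_dg (h : Raw key a b c d) (hp : prN key ≤ 531441) {l : ℕ} (hl : l < 198) :
    dg (UX key) (l + 198) =
      if jt (l % 22) = 0 then 64 * 2 ^ (l / 22) * prN key else 1048576 := by
  rw [← dg_div]
  have h1 : UX key / 2 ^ (64 * 198) = CA + prN key * TV := by
    rw [← Nat.shiftRight_eq_div_pow]; exact h.tail
  have hq : ∀ l < 198, 64 * 2 ^ (l / 22) * prN key < 2 ^ 40 := by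
    intro l hl
    have h2 : l / 22 ≤ 8 := by omega
    have h3 : 2 ^ (l / 22) ≤ 2 ^ 8 := Nat.pow_le_pow_right (by norm_num) h2
    calc 64 * 2 ^ (l / 22) * prN key ≤ 64 * 2 ^ 8 * 531441 := by gcongr
      _ < 2 ^ 40 := by norm_num
  rw [h1, CA_eq, TV_eq, mul_ofL, ofL_add, dg_ofL _ l hl]
  · by_cases hj : jt (l % 22) = 0
    · rw [if_pos hj, hj]; simp [Nat.beq]; ring
    · have : Nat.beq (jt (l % 22)) 0 = false := by
        cases hb : Nat.beq (jt (l % 22)) 0
        · rfl
        · exact absurd (Nat.eq_of_beq_eq_true hb) hj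
      rw [if_neg hj, this]; simp
  · intro l hl
    have := hq l hl
    cases Nat.beq (jt (l % 22)) 0
    · simp
    · simp only [zero_add]
      rw [mul_comm]
      exact this.trans (by norm_num)

theorem win22 (X m : ℕ) : (X >>> (64 * m)) % M22 = ofL (fun l => dg X (l + m)) 22 := by
  rw [M22_eq, Nat.shiftRight_eq_div_pow, window]

theorem cap_dg (h : Raw key a b c d) (hp : prN key ≤ 531441) {j : ℕ} (hj : j < 22) :
    dg (UX key) (j + 176) ≤ if jt j = 0 then 32 * prN key else 1048576 := by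
  have hU := goodU h.mask
  have h1 := gek_iff.mp h.cap
  rw [BI22_eq, CAPA_eq, CAPP_eq, mul_ofL, ofL_add, show 11264 = 64 * 176 by norm_num, win22] at h1
  have h2 := cmp rfl rfl ?_ ?_ h1 j hj
  · refine h2.trans ?_
    by_cases hj : jt j = 0
    · rw [if_pos hj, hj]; simp [Nat.beq]; omega
    · have : Nat.beq (jt j) 0 = false := by
        cases hb : Nat.beq (jt j) 0
        · rfl
        · exact absurd (Nat.eq_of_beq_eq_true hb) hj
      rw [if_neg hj, this]; simp
  · intro l _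
    cases Nat.beq (jt l) 0
    · simp
    · simp only [zero_add]; omega
  · intro l hl
    have := hU.2.1 (l + 176) (by omega)
    omega

theorem HZ_eq : ∀ s < 11, 1 ≤ s → nthN HZ s = pk (fun j => hN j 0 s) 22 := by decide +kernel

theorem hN0_lt : ∀ s < 11, 1 ≤ s → ∀ j < 22, hN j 0 s < 2 ^ 63 := by decide +kernel

theorem cs_bd (h : Raw key a b c d) : 1 ≤ csN key ∧ csN key ≤ 10 := by
  have h1 := h.cs
  unfold chkCs at h1
  obtain ⟨h2, h1⟩ := band_iff.mp h1
  obtain ⟨h3, _⟩ := band_iff.mp h1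
  exact ⟨Nat.le_of_ble_eq_true h2, Nat.le_of_ble_eq_true h3⟩

theorem cs_le (h : Raw key a b c d) : leB (nthN (nthL CHT (csN key)) 0) a = true ∧
    leB (nthN (nthL CHT (csN key)) 1) b = true ∧ leB (nthN (nthL CHT (csN key)) 2) c = true ∧
    leB (nthN (nthL CHT (csN key)) 3) d = true := by
  have h1 := h.cs
  unfold chkCs at h1
  obtain ⟨_, h1⟩ := band_iff.mp h1
  obtain ⟨_, h1⟩ := band_iff.mp h1
  obtain ⟨h2, h1⟩ := band_iff.mp h1
  obtain ⟨h3, h1⟩ := band_iff.mp h1
  obtain ⟨h4, h5⟩ := band_iff.mp h1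
  exact ⟨h2, h3, h4, h5⟩

theorem zero_dg (h : Raw key a b c d) {j : ℕ} (hj : j < 22) :
    hN j 0 (csN key) ≤ dg (UX key) j := by
  have hU := goodU h.mask
  obtain ⟨c1, c2⟩ := cs_bd h
  have h1 := gek_iff.mp h.zero
  have hw : UX key % M22 = ofL (fun l => dg (UX key) (l + 0)) 22 := by
    rw [← win22]; simp
  rw [BI22_eq, hw, HZ_eq _ (by omega) c1, pk_eq] at h1
  exact cmp rfl rfl (fun l hl => by have := hU.2.1 (l + 0) (by omega); omega)
    (fun l hl => hN0_lt _ (by omega) c1 l hl) h1 j hj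

/-- digits of the shifted values -/
noncomputable def shd (key l : ℕ) : ℕ :=
  if jt (l % 22) = 0 then 3 * dg (UX key) l + 131072
  else if jt (l % 22) = 1 then 1048576 else dg (UX key) (l - 1)

theorem dg_and_ones (x l : ℕ) : dg x l &&& (2 ^ 64 - 1) = dg x l := by
  rw [Nat.and_two_pow_sub_one_eq_mod]
  exact Nat.mod_eq_of_lt (dg_lt _ _)

theorem dg_shl (Y l : ℕ) : dg (Y <<< 64) (l + 1) = dg Y l := by
  unfold dg
  rw [Nat.shiftLeft_eq, show 64 * (l + 1) = 64 + 64 * l by ring, pow_add, ← Nat.div_div_eq_div_mul,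
    Nat.mul_div_cancel _ (by positivity)]

theorem jt0 : ¬ 2 ≤ jt 0 := by decide +kernel

theorem SHV_eq (key : ℕ) : SHV (UX key % M176) = ofL (shd key) 176 := by
  have hY : ∀ l < 176, dg (UX key % M176) l = dg (UX key) l := by
    intro l hl; rw [M176_eq, dg_mod hl]
  set Y := UX key % M176 with hYd
  have h1 : (Y <<< 64) &&& MA = ofL (fun l => if 2 ≤ jt (l % 22) then dg (UX key) (l - 1) else 0) 176 := by
    have hm := mask_lt (X := (Y <<< 64) &&& MA) MA_eq (fun l _ => by
      cases Nat.ble 2 (jt (l % 22)) <;> norm_num) (by rw [Nat.and_assoc, Nat.and_self])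
    rw [eq_ofL hm.1]
    apply ofL_congr
    intro l hl
    have hmask : dg MA l = (Bool.rec 0 (2 ^ 64 - 1) (Nat.ble 2 (jt (l % 22))) : ℕ) := by
      rw [MA_eq, dg_ofL (fun l _ => by cases Nat.ble 2 (jt (l % 22)) <;> norm_num) l hl]
    rw [dg_land, hmask]
    by_cases h2 : 2 ≤ jt (l % 22)
    · rw [Nat.ble_eq_true_of_le h2, if_pos h2]
      have hl0 : l ≠ 0 := by
        intro h0; rw [h0] at h2; exact jt0 h2
      obtain ⟨l', rfl⟩ := Nat.exists_eq_succ_of_ne_zero hl0
      show dg (Y <<< 64) (l' + 1) &&& (2 ^ 64 - 1) = _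
      rw [dg_and_ones, dg_shl, hY l' (by omega)]
      rfl
    · have : Nat.ble 2 (jt (l % 22)) = false := by
        cases hb : Nat.ble 2 (jt (l % 22))
        · rfl
        · exact absurd (Nat.le_of_ble_eq_true hb) h2
      rw [this, if_neg h2]
      exact Nat.and_zero _
  have h2 : Y &&& MP = ofL (fun l => if jt (l % 22) = 0 then dg (UX key) l else 0) 176 := by
    have hm := mask_lt (X := Y &&& MP) MP_eq (fun l _ => by
      cases Nat.beq (jt (l % 22)) 0 <;> norm_num) (by rw [Nat.and_assoc, Nat.and_self])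
    rw [eq_ofL hm.1]
    apply ofL_congr
    intro l hl
    have hmask : dg MP l = (Bool.rec 0 (2 ^ 64 - 1) (Nat.beq (jt (l % 22)) 0) : ℕ) := by
      rw [MP_eq, dg_ofL (fun l _ => by cases Nat.beq (jt (l % 22)) 0 <;> norm_num) l hl]
    rw [dg_land, hmask]
    by_cases h2 : jt (l % 22) = 0
    · rw [h2, if_pos rfl]
      show dg Y l &&& (2 ^ 64 - 1) = _
      rw [dg_and_ones, hY l hl]
    · have : Nat.beq (jt (l % 22)) 0 = false := by
        cases hb : Nat.beq (jt (l % 22)) 0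
        · rfl
        · exact absurd (Nat.eq_of_beq_eq_true hb) h2
      rw [this, if_neg h2]
      exact Nat.and_zero _
  show ((Y <<< 64) &&& MA) + CA1 + 3 * (Y &&& MP) = _
  rw [h1, h2, CA1_eq, mul_ofL, ofL_add, ofL_add]
  apply ofL_congr
  intro l _
  unfold shd
  by_cases h0 : jt (l % 22) = 0
  · simp [h0, Nat.beq]; ring
  · have hb0 : Nat.beq (jt (l % 22)) 0 = false := by
      cases hb : Nat.beq (jt (l % 22)) 0
      · rfl
      · exact absurd (Nat.eq_of_beq_eq_true hb) h0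
    by_cases h1 : jt (l % 22) = 1
    · simp [h1, Nat.beq]
    · have hb1 : Nat.beq (jt (l % 22)) 1 = false := by
        cases hb : Nat.beq (jt (l % 22)) 1
        · rfl
        · exact absurd (Nat.eq_of_beq_eq_true hb) h1
      rw [hb0, hb1, if_neg h0, if_neg h0, if_neg h1, if_pos (by omega)]
      simp

/-- digits of the value of a call -/
noncomputable def Vd (key s l : ℕ) : ℕ :=
  ∑ m ∈ range 23, nthN (nthL BR s) m * dg (nthN (cv (key - 5 ^ s)) m) l

theorem Vv_eq {s : ℕ} (hs : s < 11) (h : GoodC (key - 5 ^ s)) : Vv key s = ofL (Vd key s) 176 :=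
  dot_cv h (br_len hs).1

theorem Vd_lt {s : ℕ} (hs : s < 11) (h : GoodC (key - 5 ^ s)) {l : ℕ} (hl : l < 176) :
    Vd key s l ≤ 2 ^ 60 := sum_bd h hl (br_len hs).2

theorem step_dg (h : Raw key a b c d) (ha : a < 11) (hb : b < 11) (hc : c < 11) (hd : d < 11)
    (ga : GoodC (key - 5 ^ a)) (gb : GoodC (key - 5 ^ b)) (gc : GoodC (key - 5 ^ c))
    (gd : GoodC (key - 5 ^ d)) {l : ℕ} (hl : l < 176) :
    262144 * shd key l + ((Vd key a l + Vd key b l) + (Vd key c l + Vd key d l)) ≤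
      1310720 * dg (UX key) (l + 22) := by
  have hU := goodU h.mask
  have h1 := gek_iff.mp h.step
  rw [BI176_eq] at h1
  refine cmp (f := fun l => 1310720 * dg (UX key) (l + 22))
    (g := fun l => 262144 * shd key l + ((Vd key a l + Vd key b l) + (Vd key c l + Vd key d l)))
    ?_ ?_ ?_ ?_ h1 l hl
  · rw [show 1408 = 64 * 22 by norm_num, win_eq, mul_ofL]
  · rw [SHV_eq, Vv_eq ha ga, Vv_eq hb gb, Vv_eq hc gc, Vv_eq hd gd, CS_eq, mul_ofL, ofL_add,
      ofL_add, ofL_add, ofL_add]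
  · intro l hl
    have := hU.2.2 (l + 22) (by omega)
    omega
  · intro l hl
    have h2 : shd key l ≤ 2 ^ 27 := by
      unfold shd
      have e1 := hU.2.2 l (by omega)
      have e2 := hU.2.2 (l - 1) (by omega)
      split_ifs <;> omega
    have e1 := Vd_lt ha ga hl
    have e2 := Vd_lt hb gb hl
    have e3 := Vd_lt hc gc hl
    have e4 := Vd_lt hd gd hl
    omega

end

end Pool.Agent.H92.Frog.K
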